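import Pool.Agent.H578.CM.D.F7f
import Pool.Agent.H578.CM.D.F11f
import Pool.Agent.H578.CM.D.F19f
import Pool.Agent.H578.CM.D.F31f
import Pool.Agent.H578.CM.D.F59f

set_option autoImplicit false

/-!
# `Z_p(m)` modulo `p²` at `m = -112, -400, -2704, -24304, -1123600`
-/

open Finset

namespace Pool.Agent.Results.MP_afcc06_nt.FranelFive

/-- the Franel numbers -/
def a (n : ℕ) : ℕ := ∑ k ∈ range (n + 1), (n.choose k) ^ 3

/-- the sum `Z_p(m) = ∑_{n<p} C(2n,n) a_n m^{-n}` -/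
def Z (p : ℕ) (m : ℤ) : ℚ := ∑ n ∈ range p, ((2 * n).choose n : ℚ) * (a n : ℚ) / (m : ℚ) ^ n

/-- congruence modulo `p²` of rational numbers: `(u - v) / p²` has denominator prime to `p` -/
def Cong (p : ℕ) (u v : ℚ) : Prop := p.Coprime ((u - v) / (p : ℚ) ^ 2).den

/-- the arguments -/
def f (b : ℕ) : ℤ :=
  if b = 7 then -112 else if b = 11 then -400 else if b = 19 then -2704 else if b = 31 then -24304 else -1123600

theorem tr {p : ℕ} [hp : Fact p.Prime] {m : ℤ} (hM : ¬ (p : ℤ) ∣ m) {wi : Pool.Agent.Q267.CDE.R p}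
    (hwi : (m : Pool.Agent.Q267.CDE.R p) * wi = 1) {E : ℤ}
    (hE : Pool.Agent.H547.AA p wi = ((E : ℤ) : Pool.Agent.Q267.CDE.R p)) : Cong p (Z p m) (E : ℚ) := by
  have := Pool.Agent.H547.trA hM hwi E hE
  unfold Cong
  rw [Nat.Prime.coprime_iff_not_dvd hp.out]
  have e : Z p m = ∑ k ∈ range p, ((k.centralBinom : ℚ) * (Pool.Agent.H547.fr k : ℚ)) /
      ((m : ℤ) : ℚ) ^ k := by
    unfold Z
    refine sum_congr rfl fun k _ => ?_
    rw [Nat.centralBinom]
    rfl
  rw [e]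
  exact this

/-- the five congruences for one `b` -/
def Five (p : ℕ) [Fact p.Prime] (b : ℕ) (m : ℤ) : Prop :=
  (∀ x y : ℤ, x ^ 2 + 3 * b * y ^ 2 = p → Cong p (Z p m) (4 * (x : ℚ) ^ 2 - 2 * p)) ∧
  (∀ x y : ℤ, 3 * x ^ 2 + b * y ^ 2 = p → Cong p (Z p m) (2 * p - 12 * (x : ℚ) ^ 2)) ∧
  (∀ x y : ℤ, x ^ 2 + 3 * b * y ^ 2 = 2 * p → Cong p (Z p m) (2 * (x : ℚ) ^ 2 - 2 * p)) ∧
  (∀ x y : ℤ, 3 * x ^ 2 + b * y ^ 2 = 2 * p → Cong p (Z p m) (2 * p - 6 * (x : ℚ) ^ 2)) ∧
  (legendreSym p (-(3 * b)) = -1 → Cong p (Z p m) 0)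

theorem case7 (p : ℕ) [hp : Fact p.Prime] (h5 : 3 < p) (hpb : p ≠ 7) (hpf : ¬ (p : ℤ) ∣ -112) :
    Five p 7 (-112) := by
  obtain ⟨wi, hwi⟩ := Pool.Agent.H546.inv_exists hpf
  obtain ⟨h1, h3, h2, h6, h0⟩ := Pool.Agent.H578.CM.F7.main (p := p) h5 hpb hpf hwi
  refine ⟨fun x y h => ?_, fun x y h => ?_, fun x y h => ?_, fun x y h => ?_, fun h => ?_⟩
  · have := tr hpf hwi (h1 x y (by exact_mod_cast h.symm))
    push_cast at this
    exact this
  · have := tr hpf hwi (h3 x y (by exact_mod_cast h.symm))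
    push_cast at this
    exact this
  · have := tr hpf hwi (h2 x y (by exact_mod_cast h.symm))
    push_cast at this
    exact this
  · have := tr hpf hwi (h6 x y (by exact_mod_cast h.symm))
    push_cast at this
    exact this
  · have := tr hpf hwi (h0 (by exact_mod_cast h))
    push_cast at this
    exact this

theorem case11 (p : ℕ) [hp : Fact p.Prime] (h5 : 3 < p) (hpb : p ≠ 11) (hpf : ¬ (p : ℤ) ∣ -400) :
    Five p 11 (-400) := by
  obtain ⟨wi, hwi⟩ := Pool.Agent.H546.inv_exists hpf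
  obtain ⟨h1, h3, h2, h6, h0⟩ := Pool.Agent.H578.CM.F11.main (p := p) h5 hpb hpf hwi
  refine ⟨fun x y h => ?_, fun x y h => ?_, fun x y h => ?_, fun x y h => ?_, fun h => ?_⟩
  · have := tr hpf hwi (h1 x y (by exact_mod_cast h.symm))
    push_cast at this
    exact this
  · have := tr hpf hwi (h3 x y (by exact_mod_cast h.symm))
    push_cast at this
    exact this
  · have := tr hpf hwi (h2 x y (by exact_mod_cast h.symm))
    push_cast at this
    exact this
  · have := tr hpf hwi (h6 x y (by exact_mod_cast h.symm))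
    push_cast at this
    exact this
  · have := tr hpf hwi (h0 (by exact_mod_cast h))
    push_cast at this
    exact this

theorem case19 (p : ℕ) [hp : Fact p.Prime] (h5 : 3 < p) (hpb : p ≠ 19) (hpf : ¬ (p : ℤ) ∣ -2704) :
    Five p 19 (-2704) := by
  obtain ⟨wi, hwi⟩ := Pool.Agent.H546.inv_exists hpf
  obtain ⟨h1, h3, h2, h6, h0⟩ := Pool.Agent.H578.CM.F19.main (p := p) h5 hpb hpf hwi
  refine ⟨fun x y h => ?_, fun x y h => ?_, fun x y h => ?_, fun x y h => ?_, fun h => ?_⟩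
  · have := tr hpf hwi (h1 x y (by exact_mod_cast h.symm))
    push_cast at this
    exact this
  · have := tr hpf hwi (h3 x y (by exact_mod_cast h.symm))
    push_cast at this
    exact this
  · have := tr hpf hwi (h2 x y (by exact_mod_cast h.symm))
    push_cast at this
    exact this
  · have := tr hpf hwi (h6 x y (by exact_mod_cast h.symm))
    push_cast at this
    exact this
  · have := tr hpf hwi (h0 (by exact_mod_cast h))
    push_cast at this
    exact this

theorem case31 (p : ℕ) [hp : Fact p.Prime] (h5 : 3 < p) (hpb : p ≠ 31) (hpf : ¬ (p : ℤ) ∣ -24304) :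
    Five p 31 (-24304) := by
  obtain ⟨wi, hwi⟩ := Pool.Agent.H546.inv_exists hpf
  obtain ⟨h1, h3, h2, h6, h0⟩ := Pool.Agent.H578.CM.F31.main (p := p) h5 hpb hpf hwi
  refine ⟨fun x y h => ?_, fun x y h => ?_, fun x y h => ?_, fun x y h => ?_, fun h => ?_⟩
  · have := tr hpf hwi (h1 x y (by exact_mod_cast h.symm))
    push_cast at this
    exact this
  · have := tr hpf hwi (h3 x y (by exact_mod_cast h.symm))
    push_cast at this
    exact this
  · have := tr hpf hwi (h2 x y (by exact_mod_cast h.symm))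
    push_cast at this
    exact this
  · have := tr hpf hwi (h6 x y (by exact_mod_cast h.symm))
    push_cast at this
    exact this
  · have := tr hpf hwi (h0 (by exact_mod_cast h))
    push_cast at this
    exact this

theorem case59 (p : ℕ) [hp : Fact p.Prime] (h5 : 3 < p) (hpb : p ≠ 59) (hpf : ¬ (p : ℤ) ∣ -1123600) :
    Five p 59 (-1123600) := by
  obtain ⟨wi, hwi⟩ := Pool.Agent.H546.inv_exists hpf
  obtain ⟨h1, h3, h2, h6, h0⟩ := Pool.Agent.H578.CM.F59.main (p := p) h5 hpb hpf hwi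
  refine ⟨fun x y h => ?_, fun x y h => ?_, fun x y h => ?_, fun x y h => ?_, fun h => ?_⟩
  · have := tr hpf hwi (h1 x y (by exact_mod_cast h.symm))
    push_cast at this
    exact this
  · have := tr hpf hwi (h3 x y (by exact_mod_cast h.symm))
    push_cast at this
    exact this
  · have := tr hpf hwi (h2 x y (by exact_mod_cast h.symm))
    push_cast at this
    exact this
  · have := tr hpf hwi (h6 x y (by exact_mod_cast h.symm))
    push_cast at this
    exact this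
  · have := tr hpf hwi (h0 (by exact_mod_cast h))
    push_cast at this
    exact this

/-- **The conjectured congruences for `b = 7, 11, 19, 31, 59`.** -/
theorem result (b : ℕ) (hb : b = 7 ∨ b = 11 ∨ b = 19 ∨ b = 31 ∨ b = 59) (p : ℕ) [hp : Fact p.Prime] (hp2 : p ≠ 2)
    (hp3 : p ≠ 3) (hpb : p ≠ b) (hpf : ¬ (p : ℤ) ∣ f b) :
    (∀ x y : ℤ, x ^ 2 + 3 * b * y ^ 2 = p → Cong p (Z p (f b)) (4 * (x : ℚ) ^ 2 - 2 * p)) ∧
    (∀ x y : ℤ, 3 * x ^ 2 + b * y ^ 2 = p → Cong p (Z p (f b)) (2 * p - 12 * (x : ℚ) ^ 2)) ∧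
    (∀ x y : ℤ, x ^ 2 + 3 * b * y ^ 2 = 2 * p → Cong p (Z p (f b)) (2 * (x : ℚ) ^ 2 - 2 * p)) ∧
    (∀ x y : ℤ, 3 * x ^ 2 + b * y ^ 2 = 2 * p → Cong p (Z p (f b)) (2 * p - 6 * (x : ℚ) ^ 2)) ∧
    (legendreSym p (-(3 * b)) = -1 → Cong p (Z p (f b)) 0) := by
  have h3 : 3 < p := by
    have := hp.out.two_le
    omega
  rcases hb with rfl | rfl | rfl | rfl | rfl
  · exact case7 p h3 hpb hpf
  · exact case11 p h3 hpb hpf
  · exact case19 p h3 hpb hpf
  · exact case31 p h3 hpb hpf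
  · exact case59 p h3 hpb hpf

end Pool.Agent.Results.MP_afcc06_nt.FranelFive
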